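import Mathlib

set_option autoImplicit false

namespace Pool.Agent.Results.MP_d80673_al.NotVariety

/-- Relational composition. -/
def wcomp {X : Type} (R S : Set (X × X)) : Set (X × X) :=
  {p | ∃ y, (p.1, y) ∈ R ∧ (y, p.2) ∈ S}

/-- `≤ ; R ; ≤ ⊆ R`. -/
def Weak {X : Type} [PartialOrder X] (R : Set (X × X)) : Prop :=
  wcomp (wcomp {p | p.1 ≤ p.2} R) {p | p.1 ≤ p.2} ⊆ R

/-- The implication of weakening relations. -/
def wimp {X : Type} [PartialOrder X] (R S : Set (X × X)) : Set (X × X) :=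
  {p | ∀ x y, x ≤ p.1 → p.2 ≤ y → (x, y) ∈ R → (x, y) ∈ S}

/-- `(A, i, c)` embeds in a direct product of algebras `𝔚(P)`. -/
def InK (A : Type) (i c : A → A → A) : Prop :=
  ∃ (ι : Type) (P : ι → Type) (_ : ∀ j, PartialOrder (P j)) (φ : A → ∀ j, Set (P j × P j)),
    Function.Injective φ ∧ (∀ a j, Weak (φ a j)) ∧
    ∀ a b j, φ (i a b) j = wimp (φ a j) (φ b j) ∧ φ (c a b) j = wcomp (φ a j) (φ b j)

theorem wimp_self {X : Type} [PartialOrder X] (R : Set (X × X)) : wimp R R = Set.univ :=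
  Set.eq_univ_of_forall fun _ _ _ _ _ h => h

theorem quasi {A : Type} {i m : A → A → A} (h : InK A i m) (a b u v c d : A)
    (h1 : m a b = i a a) (h2 : i (m u a) (i (m v a) c) = i a a)
    (h3 : i (m b u) (i (m b v) d) = i a a) : i u (i v (m c d)) = i a a := by
  obtain ⟨ι, P, _, φ, hi, hw, hφ⟩ := h
  refine hi (funext fun j => ?_)
  have e1 := congrArg (φ · j) h1
  have e2 := congrArg (φ · j) h2
  have e3 := congrArg (φ · j) h3
  simp only [(hφ _ _ j).1, (hφ _ _ j).2, wimp_self, Set.eq_univ_iff_forall] at e1 e2 e3 ⊢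
  intro p x y _ _ hu x' y' hx hy hv
  have hu' : (x', y') ∈ φ u j := hw u j ⟨y, ⟨x, hx, hu⟩, hy⟩
  obtain ⟨z, ha, hb⟩ := e1 (y', x')
  exact ⟨z, e2 (x', z) _ _ le_rfl le_rfl ⟨y', hu', ha⟩ _ _ le_rfl le_rfl ⟨y', hv, ha⟩,
    e3 (z, y') _ _ le_rfl le_rfl ⟨x', hb, hu'⟩ _ _ le_rfl le_rfl ⟨x', hb, hv⟩⟩

/-- Four points with the discrete order. -/
def D : Type := Fin 4

instance : Fintype D := inferInstanceAs (Fintype (Fin 4))
instance : DecidableEq D := inferInstanceAs (DecidableEq (Fin 4))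
instance : PartialOrder D where
  le x y := x = y
  le_refl _ := rfl
  le_trans _ _ _ := Eq.trans
  le_antisymm _ _ h _ := h

def gen : Fin 6 → Fin 4 → Fin 4 → Bool :=
  ![![![true, true, true, false], ![true, false, true, false], ![true, true, true, false],
      ![true, false, false, true]],
    ![![false, true, true, false], ![true, false, true, true], ![false, false, false, true],
      ![true, true, true, true]],
    ![![false, true, false, true], ![false, true, true, true], ![true, false, true, false],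
      ![true, false, true, true]],
    ![![true, true, true, false], ![true, false, true, false], ![false, false, false, true],
      ![true, true, true, true]],
    ![![true, false, true, false], ![true, true, true, false], ![true, true, true, false],
      ![true, true, true, true]],
    ![![true, false, true, true], ![true, true, true, true], ![true, false, true, true],
      ![true, true, true, true]]]

def nul : Fin 4 → Fin 4 → Bool :=
  ![![false, false, false, false], ![true, false, false, false], ![false, false, false, false],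
    ![true, false, false, false]]

def g (k : Fin 6) : Set (D × D) := {p | gen k p.1 p.2 = true}
def N : Set (D × D) := {p | nul p.1 p.2 = true}

theorem mem_wimp (R S : Set (D × D)) (p : D × D) : p ∈ wimp R S ↔ (p ∈ R → p ∈ S) :=
  ⟨fun h => h _ _ rfl rfl, fun h x y hx hy => by
    have hx' : x = p.1 := hx
    have hy' : p.2 = y := hy
    subst hx' hy'; exact h⟩

theorem c0 : ∀ k l : Fin 6, ∃ m : Fin 6, ∀ p r : Fin 4, gen m p r = true →
    ∃ q : Fin 4, gen k p q = true ∧ gen l q r = true := by decide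

theorem c1 : ∀ k l : Fin 6, ∀ p q r : Fin 4, nul q r = true →
    (∃ q' : Fin 4, gen k p q' = true ∧ gen l q' r = true) ∨ gen l q r = true ∨ nul p r = true := by
  decide

theorem c2 : ∀ k l : Fin 6, ∀ p q r : Fin 4, nul p q = true →
    (∃ q' : Fin 4, gen k p q' = true ∧ gen l q' r = true) ∨ gen k p q = true ∨ nul p r = true := by
  decide

def A : Type := {R : Set (D × D) // ∃ k, g k ⊆ R}
def B : Type := {R : Set (D × D) // (∃ k, g k ⊆ R) ∧ N ⊆ R}

theorem imp_ok (R : Set (D × D)) {S : Set (D × D)} : S ⊆ wimp R S :=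
  fun p h => (mem_wimp _ _ p).2 fun _ => h

theorem comp_ok {R S : Set (D × D)} (hR : ∃ k, g k ⊆ R) (hS : ∃ k, g k ⊆ S) :
    ∃ k, g k ⊆ wcomp R S := by
  obtain ⟨k, hk⟩ := hR
  obtain ⟨l, hl⟩ := hS
  obtain ⟨m, hm⟩ := c0 k l
  refine ⟨m, fun p hp => ?_⟩
  obtain ⟨q, h1, h2⟩ := hm _ _ hp
  exact ⟨q, hk h1, hl h2⟩

def iA (R S : A) : A := ⟨wimp R.1 S.1, S.2.imp fun _ h => h.trans (imp_ok _)⟩
def cA (R S : A) : A := ⟨wcomp R.1 S.1, comp_ok R.2 S.2⟩
def iB (R S : B) : B :=
  ⟨wimp R.1 S.1, S.2.1.imp fun _ h => h.trans (imp_ok _), S.2.2.trans (imp_ok _)⟩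
def cB (R S : B) : B := ⟨wcomp R.1 S.1 ∪ N,
  (comp_ok R.2.1 S.2.1).imp fun _ h => h.trans Set.subset_union_left, Set.subset_union_right⟩
def hom (R : A) : B :=
  ⟨R.1 ∪ N, R.2.imp fun _ h => h.trans Set.subset_union_left, Set.subset_union_right⟩

theorem hom_c (R S : A) : hom (cA R S) = cB (hom R) (hom S) := by
  refine Subtype.ext (Set.Subset.antisymm ?_ ?_)
  · rintro p (⟨q, h1, h2⟩ | h)
    · exact Or.inl ⟨q, Or.inl h1, Or.inl h2⟩
    · exact Or.inr h
  · obtain ⟨k, hk⟩ := R.2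
    obtain ⟨l, hl⟩ := S.2
    have key : ∀ p q r : D, (p, q) ∈ R.1 → (q, r) ∈ S.1 ∪ N → (p, r) ∈ wcomp R.1 S.1 ∪ N := by
      rintro p q r h1 (h2 | h2)
      · exact Or.inl ⟨q, h1, h2⟩
      · rcases c1 k l p q r h2 with ⟨q', a, b⟩ | a | a
        · exact Or.inl ⟨q', hk a, hl b⟩
        · exact Or.inl ⟨q, h1, hl a⟩
        · exact Or.inr a
    rintro ⟨p, r⟩ (⟨q, h1 | h1, h2⟩ | h)
    · exact key _ _ _ h1 h2
    · rcases c2 k l p q r h1 with ⟨q', a, b⟩ | a | a
      · exact Or.inl ⟨q', hk a, hl b⟩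
      · exact key _ _ _ (hk a) h2
      · exact Or.inr a
    · exact Or.inr h

def gB (k : Fin 6) : B := hom ⟨g k, k, subset_rfl⟩

theorem result : ∃ (A B : Type) (iA cA : A → A → A) (iB cB : B → B → B) (h : A → B),
    Function.Surjective h ∧ (∀ a b, h (iA a b) = iB (h a) (h b) ∧ h (cA a b) = cB (h a) (h b)) ∧
    InK A iA cA ∧ ¬ InK B iB cB := by
  refine ⟨A, B, iA, cA, iB, cB, hom, fun S => ⟨⟨S.1, S.2.1⟩,
    Subtype.ext (Set.union_eq_left.2 S.2.2)⟩, fun R S => ⟨Subtype.ext (Set.ext fun p => ?_),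
    hom_c R S⟩, ⟨Unit, fun _ => D, inferInstance, fun R _ => R.1, fun R S h =>
    Subtype.ext (congrFun h ()), ?_, fun _ _ _ => ⟨rfl, rfl⟩⟩, fun h => ?_⟩
  · simp only [hom, iA, iB, Set.mem_union, mem_wimp]; tauto
  · rintro R _ ⟨p, r⟩ ⟨q, ⟨s, h1, h2⟩, h3⟩
    have h1' : p = s := h1
    have h3' : q = r := h3
    subst h1' h3'; exact h2
  · have := quasi h (gB 0) (gB 1) (gB 2) (gB 3) (gB 4) (gB 5) ?_ ?_ ?_
    · have h2 := Set.ext_iff.1 (congrArg Subtype.val this) ((0 : Fin 4), (1 : Fin 4))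
      revert h2
      simp only [gB, hom, iB, cB, mem_wimp, Set.mem_union, wcomp, g, N, Set.mem_setOf_eq]
      decide
    all_goals
      refine Subtype.ext (Set.ext fun p => ?_)
      simp only [gB, hom, iB, cB, mem_wimp, Set.mem_union, wcomp, g, N, Set.mem_setOf_eq]
      revert p
      decide

end Pool.Agent.Results.MP_d80673_al.NotVariety
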